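import Pool.Agent.Helper69.TPF.St3

/-!
# Project TPF, module SIG
-/

set_option autoImplicit false

open scoped commutatorElement

namespace Pool.Agent.Helper21.TPF

open Pool.Agent.Helper6.TS Pool.Agent.Helper69.TPF

/-- A multiplicative relation which is total and single valued modulo `W` is a homomorphism to the quotient. -/
theorem hom_of_rel {F S : Type} [Group F] [Group S] (W : Subgroup S) [W.Normal] (R : F → S → Prop)
    (h1 : ∀ x, ∃ k, R x k) (h2 : ∀ x y k k', R x k → R y k' → R (x * y) (k * k'))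
    (h3 : ∀ x k k', R x k → R x k' → k⁻¹ * k' ∈ W) :
    ∃ s : F →* S ⧸ W, ∀ x k, R x k → s x = QuotientGroup.mk k := by
  choose κ hκ using h1
  refine ⟨MonoidHom.mk' (fun x => (QuotientGroup.mk (κ x) : S ⧸ W)) ?_, ?_⟩
  · intro x y
    rw [← QuotientGroup.mk_mul, QuotientGroup.eq]
    exact h3 _ _ _ (hκ _) (h2 _ _ _ _ (hκ x) (hκ y))
  · intro x k hk
    show (QuotientGroup.mk (κ x) : S ⧸ W) = QuotientGroup.mk k
    rw [QuotientGroup.eq]
    exact h3 _ _ _ (hκ _) hk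

theorem tgt_self {g : ℕ} (t : Fin g → Fin 3) (l : Fin 3) (s : Fin g) (h : t s = l) :
    tgt t l s = FreeGroup.of ⟨s, h⟩ := by
  unfold tgt
  rw [dif_pos h]

theorem tgt_ne {g : ℕ} (t : Fin g → Fin 3) (l : Fin 3) (s : Fin g) (h : t s ≠ l) : tgt t l s = 1 := by
  unfold tgt
  rw [dif_neg h]

/-- The section given by the values `v s` on the generators of type `l`. -/
def sec {g : ℕ} (t : Fin g → Fin 3) (l : Fin 3) (v : Fin g → FreeGroup (Fin g)) :
    FreeGroup {i // t i = l} →* FreeGroup (Fin g) :=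
  FreeGroup.lift fun i => v i.1

theorem sec_id {g : ℕ} (t : Fin g → Fin 3) (l : Fin 3) (v : Fin g → FreeGroup (Fin g))
    (a : FreeGroup (Fin g) →* FreeGroup {i // t i = l}) (h : ∀ s, a (v s) = tgt t l s) (p : FreeGroup {i // t i = l}) :
    a (sec t l v p) = p := by
  have h1 : a.comp (sec t l v) = MonoidHom.id _ := by
    apply FreeGroup.ext_hom
    rintro ⟨s, hs⟩
    show a (sec t l v (FreeGroup.of ⟨s, hs⟩)) = FreeGroup.of ⟨s, hs⟩
    unfold sec
    rw [FreeGroup.lift_apply_of, h s, tgt_self t l s hs]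
  exact DFunLike.congr_fun h1 p

theorem sec_one {g : ℕ} (t : Fin g → Fin 3) (l l' : Fin 3) (hl : l ≠ l') (v : Fin g → FreeGroup (Fin g))
    (a : FreeGroup (Fin g) →* FreeGroup {i // t i = l'}) (h : ∀ s, a (v s) = tgt t l' s)
    (p : FreeGroup {i // t i = l}) : a (sec t l v p) = 1 := by
  have h1 : a.comp (sec t l v) = 1 := by
    apply FreeGroup.ext_hom
    rintro ⟨s, hs⟩
    show a (sec t l v (FreeGroup.of ⟨s, hs⟩)) = 1
    unfold sec
    rw [FreeGroup.lift_apply_of, h s, tgt_ne t l' s (by rw [hs]; exact hl)]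
  exact DFunLike.congr_fun h1 p

theorem sec_tgt {g : ℕ} (t : Fin g → Fin 3) (l : Fin 3) (v : Fin g → FreeGroup (Fin g)) (s : Fin g) (h : t s = l) :
    sec t l v (tgt t l s) = v s := by
  rw [tgt_self t l s h]
  unfold sec
  rw [FreeGroup.lift_apply_of]

theorem cSIG (del : St_DEL) : St_SIG := by
  intro g n t D v hv
  have h02 : ∀ p, D.a02 (sec t 2 v p) = p := sec_id t 2 v D.a02 fun s => (hv s).2
  have h01 : ∀ p, D.a01 (sec t 1 v p) = p := sec_id t 1 v D.a01 fun s => (hv s).1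
  have h21 : ∀ p, D.a01 (sec t 2 v p) = 1 := sec_one t 2 1 (by decide) v D.a01 fun s => (hv s).1
  have h12 : ∀ p, D.a02 (sec t 1 v p) = 1 := sec_one t 1 2 (by decide) v D.a02 fun s => (hv s).2
  have hone : ∀ k, D.f0 k = 1 → D.f1 k = 1 → D.f2 k = 1 → k ∈ Wn D n := by
    intro k e0 e1 e2
    rw [mem_Wn, e0, e1, e2]
    exact ⟨one_mem _, one_mem _, one_mem _⟩
  let R1 : FreeGroup (Fin g) → Surf g → Prop := fun x k => D.f1 k = x ∧ D.f2 k = 1 ∧ D.f0 k = sec t 2 v (D.a12 x)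
  let R2 : FreeGroup (Fin g) → Surf g → Prop := fun y k => D.f1 k = 1 ∧ D.f2 k = y ∧ D.f0 k = sec t 1 v (D.a21 y)
  have ex1 : ∀ x, ∃ k, R1 x k := by
    intro x
    obtain ⟨k, e1, e2, e0⟩ := del g t D x 1 (sec t 2 v (D.a12 x)) (h02 _).symm (by rw [map_one, h21])
    exact ⟨k, e1, e2, e0⟩
  have ex2 : ∀ y, ∃ k, R2 y k := by
    intro y
    obtain ⟨k, e1, e2, e0⟩ := del g t D 1 y (sec t 1 v (D.a21 y)) (by rw [map_one, h12]) (h01 _).symm
    exact ⟨k, e1, e2, e0⟩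
  obtain ⟨s1, hs1⟩ := hom_of_rel (Wn D n) R1 ex1
    (by
      rintro x y k k' ⟨a1, a2, a3⟩ ⟨b1, b2, b3⟩
      refine ⟨?_, ?_, ?_⟩
      · rw [map_mul, a1, b1]
      · rw [map_mul, a2, b2, one_mul]
      · rw [map_mul, a3, b3, map_mul, map_mul])
    (by
      rintro x k k' ⟨a1, a2, a3⟩ ⟨b1, b2, b3⟩
      apply hone
      · rw [map_mul, map_inv, a3, b3, inv_mul_cancel]
      · rw [map_mul, map_inv, a1, b1, inv_mul_cancel]
      · rw [map_mul, map_inv, a2, b2, inv_mul_cancel])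
  obtain ⟨s2, hs2⟩ := hom_of_rel (Wn D n) R2 ex2
    (by
      rintro x y k k' ⟨a1, a2, a3⟩ ⟨b1, b2, b3⟩
      refine ⟨?_, ?_, ?_⟩
      · rw [map_mul, a1, b1, one_mul]
      · rw [map_mul, a2, b2]
      · rw [map_mul, a3, b3, map_mul, map_mul])
    (by
      rintro x k k' ⟨a1, a2, a3⟩ ⟨b1, b2, b3⟩
      apply hone
      · rw [map_mul, map_inv, a3, b3, inv_mul_cancel]
      · rw [map_mul, map_inv, a1, b1, inv_mul_cancel]
      · rw [map_mul, map_inv, a2, b2, inv_mul_cancel])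
  have comm : ∀ x y k k', R1 x k → R2 y k' → D.f0 k * D.f0 k' = D.f0 k' * D.f0 k → Commute (s1 x) (s2 y) := by
    intro x y k k' hk hk' hc
    rw [hs1 x k hk, hs2 y k' hk']
    obtain ⟨a1, a2, -⟩ := hk
    obtain ⟨b1, b2, -⟩ := hk'
    show (QuotientGroup.mk k : Surf g ⧸ Wn D n) * QuotientGroup.mk k' = QuotientGroup.mk k' * QuotientGroup.mk k
    rw [← QuotientGroup.mk_mul, ← QuotientGroup.mk_mul, QuotientGroup.eq]
    apply hone
    · rw [map_mul, map_inv, map_mul, map_mul, hc, inv_mul_cancel]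
    · rw [map_mul, map_inv, map_mul, map_mul, a1, b1, mul_one, one_mul, inv_mul_cancel]
    · rw [map_mul, map_inv, map_mul, map_mul, a2, b2, mul_one, one_mul, inv_mul_cancel]
  refine ⟨s1, s2, ?_, ?_, ?_, ?_, ?_, ?_, ?_, ?_⟩
  · intro x hx
    obtain ⟨k, hk⟩ := ex1 x
    rw [hs1 x k hk, QuotientGroup.eq_one_iff, mem_Wn]
    obtain ⟨a1, a2, a3⟩ := hk
    rw [a1, a2, a3]
    exact ⟨lev_map _ (lev_map _ hx), hx, one_mem _⟩
  · intro y hy
    obtain ⟨k, hk⟩ := ex2 y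
    rw [hs2 y k hk, QuotientGroup.eq_one_iff, mem_Wn]
    obtain ⟨a1, a2, a3⟩ := hk
    rw [a1, a2, a3]
    exact ⟨lev_map _ (lev_map _ hy), one_mem _, hy⟩
  · intro ν hν y
    obtain ⟨k, hk⟩ := ex1 ν
    obtain ⟨k', hk'⟩ := ex2 y
    have e : D.f0 k = 1 := by
      obtain ⟨-, -, a3⟩ := hk
      rw [a3, hν, map_one]
    exact comm ν y k k' hk hk' (by rw [e, one_mul, mul_one])
  · intro x ν hν
    obtain ⟨k, hk⟩ := ex1 x
    obtain ⟨k', hk'⟩ := ex2 ν
    have e : D.f0 k' = 1 := by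
      obtain ⟨-, -, a3⟩ := hk'
      rw [a3, hν, map_one]
    exact comm x ν k k' hk hk' (by rw [e, one_mul, mul_one])
  · intro k e2 e0
    exact hs1 _ k ⟨rfl, e2, by rw [← D.c2, e0, map_one, map_one]⟩
  · intro k e1 e0
    exact hs2 _ k ⟨e1, rfl, by rw [← D.c1, e0, map_one, map_one]⟩
  · intro k s hs e2 ea e0
    exact hs1 _ k ⟨rfl, e2, by rw [ea, sec_tgt t 2 v s hs, e0]⟩
  · intro k s hs e1 ea e0
    exact hs2 _ k ⟨e1, rfl, by rw [ea, sec_tgt t 1 v s hs, e0]⟩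

end Pool.Agent.Helper21.TPF
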