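import Pool.Agent.Helper69.TPF.St3

/-!
# Project TPF, module TGH
-/

set_option autoImplicit false

open scoped commutatorElement

namespace Pool.Agent.Helper21.TPF

open Pool.Agent.Helper6.TS Pool.Agent.Helper69.TPF

theorem cTGH (ngn : St_NGN) : St_TGH := by
  intro g n t l a S _ f fo fz K u h1 h2 ha hu h3 h4
  -- the subgroup `M`
  let M : Subgroup (FreeGroup (Fin g)) :=
    { carrier := {ν | a ν = 1 ∧ ∃ k ∈ K, f k = ν ∧ fo k = 1 ∧ fz k = 1}
      mul_mem' := by
        rintro x y ⟨ax, k, hk, k1, k2, k3⟩ ⟨ay, k', hk', k1', k2', k3'⟩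
        exact ⟨by rw [map_mul, ax, ay, one_mul], k * k', K.mul_mem hk hk', by rw [map_mul, k1, k1'],
          by rw [map_mul, k2, k2', one_mul], by rw [map_mul, k3, k3', one_mul]⟩
      one_mem' := ⟨map_one _, 1, K.one_mem, map_one _, map_one _, map_one _⟩
      inv_mem' := by
        rintro x ⟨ax, k, hk, k1, k2, k3⟩
        exact ⟨by rw [map_inv, ax, inv_one], k⁻¹, K.inv_mem hk, by rw [map_inv, k1],
          by rw [map_inv, k2, inv_one], by rw [map_inv, k3, inv_one]⟩ }
  have memM : ∀ ν, ν ∈ M ↔ a ν = 1 ∧ ∃ k ∈ K, f k = ν ∧ fo k = 1 ∧ fz k = 1 := fun ν => Iff.rfl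
  have one_lev : (1 : FreeGroup (Fin g)) ∈ lev (FreeGroup (Fin g)) n := one_mem _
  -- the kernel elements of level `n`
  have hlev : ∀ ν, a ν = 1 → ν ∈ lev (FreeGroup (Fin g)) n → ν ∈ M := by
    intro ν hν hl
    obtain ⟨k, k1, k2, k3⟩ := h1 ν hν
    exact (memM ν).2 ⟨hν, k, h2 k (by rw [k1]; exact hl) (by rw [k2]; exact one_lev) (by rw [k3]; exact one_lev),
      k1, k2, k3⟩
  -- for every `s` there is an element of `K` over `u s`
  have h5 : ∀ s, ∃ k ∈ K, f k = u s ∧ fo k = 1 := by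
    intro s
    by_cases hs : t s = l
    · exact h4 s hs
    · obtain ⟨k, hk, k1, k2, -⟩ := h3 s hs
      exact ⟨k, hk, k1, k2⟩
  -- the normaliser of `M`
  have hnorm : ∀ z, z ∈ Subgroup.normalizer (M : Set (FreeGroup (Fin g))) := by
    intro z
    refine hu.le (K := Subgroup.normalizer (M : Set (FreeGroup (Fin g)))) ?_ ?_ z
    · intro s
      obtain ⟨c, hc, c1, c2⟩ := h5 s
      show ∀ ν, ν ∈ M ↔ _ * ν * _ ∈ M
      intro ν
      constructor
      · intro hν
        obtain ⟨aν, k, hk, k1, k2, k3⟩ := (memM ν).1 hν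
        refine (memM _).2 ⟨by rw [map_mul, map_mul, aν, mul_one, map_inv, mul_inv_cancel], c * k * c⁻¹,
          K.mul_mem (K.mul_mem hc hk) (K.inv_mem hc), by rw [map_mul, map_mul, map_inv, c1, k1],
          by rw [map_mul, map_mul, map_inv, c2, k2]; simp, by rw [map_mul, map_mul, map_inv, k3]; simp⟩
      · intro hν
        obtain ⟨aν, k, hk, k1, k2, k3⟩ := (memM _).1 hν
        refine (memM _).2 ⟨?_, c⁻¹ * k * c,
          K.mul_mem (K.mul_mem (K.inv_mem hc) hk) hc, by rw [map_mul, map_mul, map_inv, c1, k1]; group,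
          by rw [map_mul, map_mul, map_inv, c2, k2]; simp, by rw [map_mul, map_mul, map_inv, k3]; simp⟩
        rw [map_mul, map_mul, map_inv] at aν
        have e : a ν = (a (u s))⁻¹ * (a (u s) * a ν * (a (u s))⁻¹) * a (u s) := by group
        rw [e, aν]
        group
    · intro r hr
      show ∀ ν, ν ∈ M ↔ _ * ν * _ ∈ M
      intro ν
      have hcom : ∀ r ∈ lev (FreeGroup (Fin g)) n, ∀ ν ∈ M, r * ν * r⁻¹ ∈ M := by
        intro r hr ν hν
        have aν := ((memM ν).1 hν).1
        have e : r * ν * r⁻¹ = (r * (ν * r⁻¹ * ν⁻¹)) * ν := by group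
        rw [e]
        refine M.mul_mem (hlev _ ?_ ?_) hν
        · rw [map_mul, map_mul, map_mul, map_inv, map_inv, aν]
          simp
        · exact (lev _ n).mul_mem hr ((lev_normal _ n).conj_mem _ ((lev _ n).inv_mem hr) ν)
      constructor
      · exact hcom r hr ν
      · intro hν
        have := hcom r⁻¹ ((lev _ n).inv_mem hr) _ hν
        have e : r⁻¹ * (r * ν * r⁻¹) * r⁻¹⁻¹ = ν := by group
        rwa [e] at this
  have hM : M.Normal := by
    refine ⟨fun ν hν z => ?_⟩
    exact (hnorm z ν).1 hν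
  -- the kernel of `a` is contained in `M`
  have hker : ∀ ν, a ν = 1 → ν ∈ M := by
    intro ν hν
    have h6 := ngn g n t l a u ha hu ν hν
    rw [← SetLike.mem_coe, Subgroup.mul_normal] at h6
    obtain ⟨w, hw, r, hr, rfl⟩ := Set.mem_mul.1 h6
    have h7 : Subgroup.normalClosure {x | ∃ s, t s ≠ l ∧ x = u s} ≤ M := by
      apply Subgroup.normalClosure_le_normal
      rintro _ ⟨s, hs, rfl⟩
      refine (memM _).2 ⟨?_, h3 s hs⟩
      rw [ha s]
      unfold tgt
      rw [dif_neg hs]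
    have hwM : w ∈ M := h7 hw
    refine M.mul_mem hwM (hlev r ?_ hr)
    have aw := ((memM w).1 hwM).1
    rw [map_mul, aw, one_mul] at hν
    exact hν
  intro k e1 e2 e3
  obtain ⟨-, k', hk', k1', k2', k3'⟩ := (memM _).1 (hker _ e1)
  have h8 : k'⁻¹ * k ∈ K := by
    apply h2
    · rw [map_mul, map_inv, k1', inv_mul_cancel]
      exact one_lev
    · rw [map_mul, map_inv, k2', e2, inv_mul_cancel]
      exact one_lev
    · rw [map_mul, map_inv, k3', e3, inv_mul_cancel]
      exact one_lev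
  have h9 := K.mul_mem hk' h8
  rwa [mul_inv_cancel_left] at h9

end Pool.Agent.Helper21.TPF
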